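import Pool.Agent.W345.GK.Cl2

/-! # GK-WIT: from the `p`-torsion to the Witt vector component (helper382) -/

set_option autoImplicit false

open Polynomial Finset
open scoped TensorProduct nonZeroDivisors

namespace Pool.Agent.W382.GK.WIT

open Pool.Agent.W345.GK

section abs

variable (p : ℕ) [Fact p.Prime] (R : Type) [CommRing R] [CharP R p] [PerfectRing R p]

theorem tau_add (s t : R) : ∃ z : WittVector p R, WittVector.teichmuller p (s + t) =
    WittVector.teichmuller p s + WittVector.teichmuller p t + (p : WittVector p R) * z := by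
  have h : WittVector.teichmuller p (s + t) - WittVector.teichmuller p s -
      WittVector.teichmuller p t ∈ RingHom.ker (WittVector.constantCoeff : WittVector p R →+* R) := by
    rw [RingHom.mem_ker, map_sub, map_sub]
    show (WittVector.teichmuller p (s + t)).coeff 0 - (WittVector.teichmuller p s).coeff 0 -
      (WittVector.teichmuller p t).coeff 0 = 0
    rw [WittVector.teichmuller_coeff_zero, WittVector.teichmuller_coeff_zero,
      WittVector.teichmuller_coeff_zero]
    ring
  rw [WittVector.ker_constantCoeff, Ideal.mem_span_singleton] at h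
  obtain ⟨z, hz⟩ := h
  exact ⟨z, by rw [← hz]; ring⟩

variable {V : Type} [AddCommGroup V] (hV : ∀ c : V, p • c = 0)

include hV in
theorem p_tmul (z : WittVector p R) (c : V) :
    ((p : WittVector p R) * z) ⊗ₜ[ℤ] c = 0 := by
  have h : (p : WittVector p R) * z = (p : ℤ) • z := by
    rw [zsmul_eq_mul]
    push_cast
    rfl
  rw [h, TensorProduct.smul_tmul]
  have h2 : (p : ℤ) • c = 0 := by
    rw [natCast_zsmul]
    exact hV c
  rw [h2, TensorProduct.tmul_zero]

/-- `t ⊗ c ↦ τ(t) ⊗ c` -/
noncomputable def psiA : R →+ V →+ (WittVector p R) ⊗[ℤ] V :=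
  AddMonoidHom.mk' (fun t => AddMonoidHom.mk' (fun c => WittVector.teichmuller p t ⊗ₜ[ℤ] c)
    (fun a b => TensorProduct.tmul_add _ _ _)) (fun s t => by
      ext c
      obtain ⟨z, hz⟩ := tau_add p R s t
      simp only [AddMonoidHom.mk'_apply, AddMonoidHom.add_apply]
      rw [hz, TensorProduct.add_tmul, TensorProduct.add_tmul, p_tmul p R hV, add_zero])

/-- the additive map -/
noncomputable def psi : R ⊗[ℤ] V →+ (WittVector p R) ⊗[ℤ] V :=
  TensorProduct.liftAddHom (psiA p R hV) (fun r t c => by
    rw [map_zsmul, AddMonoidHom.smul_apply, map_zsmul])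

theorem psi_tmul (t : R) (c : V) :
    psi p R hV (t ⊗ₜ[ℤ] c) = WittVector.teichmuller p t ⊗ₜ[ℤ] c := rfl

theorem psi_inj : Function.Injective (psi p R hV) := by
  have h : ∀ x : R ⊗[ℤ] V, LinearMap.rTensor V
      ((WittVector.constantCoeff : WittVector p R →+* R).toAddMonoidHom.toIntLinearMap)
      (psi p R hV x) = x := by
    intro x
    induction x using TensorProduct.induction_on with
    | zero => rw [map_zero, map_zero]
    | tmul t c =>
      rw [psi_tmul, LinearMap.rTensor_tmul]
      congr 1
    | add x y hx hy => rw [map_add, map_add, hx, hy]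
  intro x y hxy
  rw [← h x, ← h y, hxy]

theorem psi_smul (s : R) (x : R ⊗[ℤ] V) :
    psi p R hV (s • x) = WittVector.teichmuller p s • psi p R hV x := by
  induction x using TensorProduct.induction_on with
  | zero => rw [smul_zero, map_zero, smul_zero]
  | tmul t c =>
    rw [TensorProduct.smul_tmul', psi_tmul, psi_tmul, TensorProduct.smul_tmul', smul_eq_mul,
      map_mul, smul_eq_mul]
  | add x y hx hy => rw [smul_add, map_add, hx, hy, map_add, smul_add]

theorem psi_map (f : V →+ V) (x : R ⊗[ℤ] V) :
    psi p R hV (LinearMap.lTensor R f.toIntLinearMap x) =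
      LinearMap.lTensor (WittVector p R) f.toIntLinearMap (psi p R hV x) := by
  induction x using TensorProduct.induction_on with
  | zero => rw [map_zero, map_zero, map_zero]
  | tmul t c => rw [LinearMap.lTensor_tmul, psi_tmul, psi_tmul, LinearMap.lTensor_tmul]
  | add x y hx hy => rw [map_add, map_add, hx, hy, map_add, map_add]

theorem lT_smul {V' : Type} [AddCommGroup V'] (g : V →ₗ[ℤ] V') (w : WittVector p R)
    (z : (WittVector p R) ⊗[ℤ] V) : LinearMap.lTensor (WittVector p R) g (w • z) =
      w • LinearMap.lTensor (WittVector p R) g z := by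
  induction z using TensorProduct.induction_on with
  | zero => rw [smul_zero, map_zero, smul_zero]
  | tmul t c =>
    rw [TensorProduct.smul_tmul', LinearMap.lTensor_tmul, LinearMap.lTensor_tmul,
      TensorProduct.smul_tmul']
  | add x y hx hy => rw [smul_add, map_add, hx, hy, map_add, smul_add]

theorem tf [IsDomain R] : Module.IsTorsionFree ℤ (WittVector p R) := by
  have hc : CharZero (WittVector p R) := by
    have h0 : ∀ n : ℕ, (n : WittVector p R) = 0 → n = 0 := by
      intro n
      induction n using Nat.strong_induction_on with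
      | _ n ih =>
        intro hn
        by_contra hne
        have h1 : (n : R) = 0 := by
          have := congrArg (WittVector.constantCoeff : WittVector p R →+* R) hn
          rw [map_natCast, map_zero] at this
          exact this
        rw [CharP.cast_eq_zero_iff R p] at h1
        obtain ⟨m, rfl⟩ := h1
        rw [Nat.cast_mul] at hn
        have h2 := (mul_eq_zero.1 hn).resolve_left (WittVector.p_nonzero p R)
        have hp := (Fact.out : p.Prime).two_le
        have hm : m ≠ 0 := by
          rintro rfl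
          exact hne (mul_zero p)
        exact hm (ih m (by nlinarith [Nat.pos_of_ne_zero hm]) h2)
    exact charZero_of_inj_zero h0
  infer_instance

theorem lT_inj [IsDomain R] {V' : Type} [AddCommGroup V'] (g : V →ₗ[ℤ] V')
    (hg : Function.Injective g) : Function.Injective (LinearMap.lTensor (WittVector p R) g) := by
  have := tf p R
  exact Module.Flat.lTensor_preserves_injective_linearMap g hg

end abs

/-- the inclusion of the `p`-torsion in the `p`-primary part -/
def incl (p : ℕ) (G : Type) [AddCommGroup G] : tors p G →+ pPart p G where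
  toFun c := ⟨(c : G), 1, by
    rw [pow_one]
    exact c.2⟩
  map_zero' := rfl
  map_add' _ _ := rfl

theorem incl_inj (p : ℕ) (G : Type) [AddCommGroup G] : Function.Injective (incl p G) := by
  intro a b h
  exact Subtype.ext (congrArg (fun z : pPart p G => (z : G)) h)

theorem incl_comp (p : ℕ) {G : Type} [AddCommGroup G] (f : G →+ G) :
    (pPartMap p f).toIntLinearMap ∘ₗ (incl p G).toIntLinearMap =
      (incl p G).toIntLinearMap ∘ₗ (torsMap p f).toIntLinearMap := by
  ext c
  rfl

theorem sg_eq (h1 : S_C1) {k Fc : Type} [Field k] [Fintype k] [Field Fc] [Algebra k[X] Fc]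
    {P : k[X]} (c : CycD k Fc P) (a : k[X]) (σ : Fc ≃ₐ[k[X]] Fc) (ha : ¬ P ∣ a)
    (hσ : ∀ y : Fc, aeval y (car P) = 0 → σ y = aeval y (car a)) : σ = c.sg a := by
  have e1 : σ (c.lam 1) = aeval (c.lam 1) (car a) := hσ _ ((c.roots _).2 ⟨1, rfl⟩)
  have e2 : c.sg a (c.lam 1) = aeval (c.lam 1) (car a) := by
    rw [c.sg_lam a 1 ha]
    exact (h1 k).2.2.2.2 Fc c.lam c.add c.smul c.mulX a 1
  apply AlgEquiv.ext
  intro y
  obtain ⟨b, f, hb, hf⟩ := c.gen y
  have hb' : algebraMap k[X] Fc b ≠ 0 := by
    intro h
    apply hb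
    apply c.inj
    rw [h, map_zero]
  have k1 : algebraMap k[X] Fc b * σ y = aeval (σ (c.lam 1)) f := by
    rw [Polynomial.aeval_algHom_apply, ← hf, map_mul, AlgEquiv.commutes]
  have k2 : algebraMap k[X] Fc b * c.sg a y = aeval (c.sg a (c.lam 1)) f := by
    rw [Polynomial.aeval_algHom_apply, ← hf, map_mul, AlgEquiv.commutes]
  apply mul_left_cancel₀ hb'
  rw [k1, k2, e1, e2]

theorem wit (h1 : S_C1) : S_WIT := by
  intro k Fc _ _ _ _ p _ _ P _ κ c hex
  obtain ⟨x, hx, hxa⟩ := hex
  have hirr := (Fact.out : Irreducible P)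
  have hmax : (Ideal.span {P}).IsMaximal := PrincipalIdealRing.isMaximal_of_irreducible hirr
  have hdom : IsDomain (k[X] ⧸ Ideal.span {P}) := Ideal.Quotient.isDomain _
  have hchar : CharP (k[X] ⧸ Ideal.span {P}) p :=
    charP_of_injective_algebraMap (algebraMap k (k[X] ⧸ Ideal.span {P})).injective p
  have hfin : Finite (k[X] ⧸ Ideal.span {P}) := by
    have h2 : Module.Finite k (AdjoinRoot P) := (AdjoinRoot.powerBasis hirr.ne_zero).finite
    have h3 : Finite (AdjoinRoot P) := Module.finite_of_finite k
    exact h3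
  have hperf : PerfectRing (k[X] ⧸ Ideal.span {P}) p := PerfectRing.ofFiniteOfIsReduced p _
  have hV : ∀ v : tors p (Cl k Fc), p • v = 0 := fun v => Subtype.ext v.2
  refine ⟨LinearMap.lTensor (WittVector p (k[X] ⧸ Ideal.span {P}))
    (incl p (Cl k Fc)).toIntLinearMap (psi p (k[X] ⧸ Ideal.span {P}) hV x), ?_, ?_⟩
  · intro h
    apply hx
    apply psi_inj p (k[X] ⧸ Ideal.span {P}) hV
    apply lT_inj p (k[X] ⧸ Ideal.span {P}) (incl p (Cl k Fc)).toIntLinearMap (incl_inj p _)
    rw [h, map_zero, map_zero]
  · intro a σ ha hσ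
    have hs := sg_eq h1 c a σ ha hσ
    subst hs
    rw [← LinearMap.comp_apply, ← LinearMap.lTensor_comp, incl_comp, LinearMap.lTensor_comp,
      LinearMap.comp_apply, ← psi_map p (k[X] ⧸ Ideal.span {P}) hV, hxa a ha, psi_smul, lT_smul,
      map_pow]

end Pool.Agent.W382.GK.WIT
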